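import Pool.Agent.Helper74.CO.Goals

/-!
# Project CO (MP_c5396e_co), packet BUMP2, BUMP3
-/

set_option autoImplicit false

namespace Pool.Agent.Helper89.CO

open Pool.Agent.Helper74.CO Finset

/-- averages of two weights -/
theorem avg2 (hF : FEJ) (hA : AVG) {ι : Type} (X : Finset ι) (a b : ι → ℝ) (K Ka Kb : ℕ)
    (κ a₀ b₀ : ℝ) (h1 : 1 ≤ Ka) (h2 : 1 ≤ Kb) (hKa : Ka ≤ K) (hKb : Kb ≤ K) (hκ : 0 ≤ κ)
    (hE : Eq2 X a b K κ) :
    |∑ x ∈ X, fw Ka (a x - a₀) * fw Kb (b x - b₀) - (#X : ℝ) / (Ka * Kb)| ≤ κ * #X := by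
  have h := hA ι X a b (fun _ => 0) Ka Kb 1 κ a₀ b₀ 0 h1 h2 le_rfl hκ ?_
  · simp only [hF.2.2.2.2, mul_one, Nat.cast_one] at h
    exact h
  · intro j k l hj hk hl hne
    have hl0 : l = 0 := by
      have := abs_lt.1 hl
      push_cast at this
      omega
    subst hl0
    have h3 := hE j k (lt_of_lt_of_le hj (by exact_mod_cast hKa))
      (lt_of_lt_of_le hk (by exact_mod_cast hKb)) (fun h => hne ⟨h.1, h.2, rfl⟩)
    simpa using h3

/-- averages of the first weight -/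
theorem avgL (hF : FEJ) (hA : AVG) {ι : Type} (X : Finset ι) (a b : ι → ℝ) (K Ka : ℕ)
    (κ a₀ : ℝ) (h1 : 1 ≤ Ka) (hKa : Ka ≤ K) (hκ : 0 ≤ κ) (hE : Eq2 X a b K κ) :
    |∑ x ∈ X, fw Ka (a x - a₀) - (#X : ℝ) / Ka| ≤ κ * #X := by
  have h := avg2 hF hA X a b K Ka 1 κ a₀ 0 h1 le_rfl hKa (h1.trans hKa) hκ hE
  simp only [hF.2.2.2.2, mul_one, Nat.cast_one] at h
  exact h

/-- averages of the second weight -/
theorem avgR (hF : FEJ) (hA : AVG) {ι : Type} (X : Finset ι) (a b : ι → ℝ) (K Kb : ℕ)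
    (κ b₀ : ℝ) (h1 : 1 ≤ Kb) (hKb : Kb ≤ K) (hκ : 0 ≤ κ) (hE : Eq2 X a b K κ) :
    |∑ x ∈ X, fw Kb (b x - b₀) - (#X : ℝ) / Kb| ≤ κ * #X := by
  have h := avg2 hF hA X a b K 1 Kb κ 0 b₀ le_rfl h1 (h1.trans hKb) hKb hκ hE
  simp only [hF.2.2.2.2, one_mul, Nat.cast_one] at h
  exact h

theorem card_ge {ι : Type} (X : Finset ι) (P : ι → Prop) [DecidablePred P] (F : ι → ℝ)
    (h : ∀ x ∈ X, F x ≤ if P x then 1 else 0) : ∑ x ∈ X, F x ≤ #(X.filter P) := by
  refine (Finset.sum_le_sum h).trans ?_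
  rw [Finset.sum_ite, Finset.sum_const_zero, add_zero, Finset.sum_const, nsmul_eq_mul, mul_one]

theorem t_BUMP2 (hF : FEJ) (hA : AVG) : BUMP2 := by
  refine ⟨373248, 1 / (64 * 373248), 1 / (8 * 373248), 1 / 432, by norm_num, by norm_num,
    by norm_num, ?_⟩
  intro ι X c d v hc hd hE hv1 hv2
  obtain ⟨hF1, hF2, hF3, hF4, hF5⟩ := hF
  obtain ⟨c₀, hc1, hc2, hc3, hc4⟩ : ∃ c₀ : ℝ, 1 / 432 ≤ c₀ ∧ c₀ ≤ 1 - 1 / 432 ∧
      c₀ - v ≤ 2 / 432 ∧ v - c₀ ≤ 2 / 432 := by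
    rcases le_total v (1 / 432) with h | h
    · exact ⟨1 / 432, le_rfl, by norm_num, by linarith, by linarith⟩
    · rcases le_total v (1 - 1 / 432) with h' | h'
      · exact ⟨v, h, h', by linarith, by linarith⟩
      · exact ⟨1 - 1 / 432, by norm_num, le_rfl, by linarith, by linarith⟩
  have key : ∀ x ∈ X, fw 373248 (c x - c₀) - 4 * (fw 373248 (c x - c₀) * fw 24 (d x - 0)) -
      1 / (8 * 373248) ≤ if (0 ≤ c x + d x - v ∧ c x + d x - v < 1) then 1 else 0 := by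
    intro x hx
    obtain ⟨g0, g1⟩ := hF1 373248 (c x - c₀)
    obtain ⟨d0, d1⟩ := hF1 24 (d x - 0)
    have hgd : 0 ≤ fw 373248 (c x - c₀) * fw 24 (d x - 0) := mul_nonneg g0 d0
    split_ifs with hP
    · linarith
    · obtain ⟨c01, c02⟩ := hc x hx
      obtain ⟨d01, d02⟩ := hd x hx
      by_cases hce : 1 / 432 ≤ |c x - c₀|
      · have hτ := hF3 373248 (1 / 432) (c x - c₀) (by norm_num) (by norm_num) hce
          (abs_le.2 ⟨by linarith, by linarith⟩)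
        have : (1 : ℝ) / (2 * ((373248 : ℕ) : ℝ) * (1 / 432)) ^ 2 ≤ 1 / (8 * 373248) := by
          norm_num
        linarith
      · obtain ⟨e1, e2⟩ := abs_lt.1 (not_le.1 hce)
        have hδ : 1 / 4 ≤ fw 24 (d x - 0) := by
          by_cases hd3 : d x ≤ 3 / 432
          · refine hF4 24 (d x - 0) (by norm_num) ?_
            rw [sub_zero, abs_of_nonneg d01]
            refine hd3.trans ?_
            norm_num
          · have hd4 : 1 - 3 / 432 ≤ d x := by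
              by_contra hcon
              exact hP ⟨by linarith, by linarith⟩
            have h5 := hF4 24 (d x - 0 + ((-1 : ℤ) : ℝ)) (by norm_num) (by
              rw [abs_le]
              push_cast
              constructor
              · norm_num
                linarith
              · norm_num
                linarith)
            rwa [hF2] at h5
        have : fw 373248 (c x - c₀) * (1 / 4) ≤ fw 373248 (c x - c₀) * fw 24 (d x - 0) :=
          mul_le_mul_of_nonneg_left hδ g0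
        linarith
  have hsum := card_ge X (fun x => 0 ≤ c x + d x - v ∧ c x + d x - v < 1) _ key
  rw [Finset.sum_sub_distrib, Finset.sum_sub_distrib, ← Finset.mul_sum, Finset.sum_const,
    nsmul_eq_mul] at hsum
  have hF : FEJ := ⟨hF1, hF2, hF3, hF4, hF5⟩
  have a1 := avgL hF hA X c d 373248 373248 (1 / (64 * 373248)) c₀ (by norm_num) le_rfl
    (by norm_num) hE
  have a2 := avg2 hF hA X c d 373248 373248 24 (1 / (64 * 373248)) c₀ 0 (by norm_num)
    (by norm_num) le_rfl (by norm_num) (by norm_num) hE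
  obtain ⟨a3, -⟩ := abs_le.1 a1
  obtain ⟨-, a4⟩ := abs_le.1 a2
  push_cast at a3 a4
  have hX : (0 : ℝ) ≤ #X := Nat.cast_nonneg _
  exact le_trans (by linarith) hsum

theorem t_BUMP3 (hF : FEJ) (hA : AVG) : BUMP3 := by
  refine ⟨40, 1 / 10000, 1 / 10000, by norm_num, by norm_num, ?_⟩
  intro ι X a c u v ha hc hE hu hv
  have hFc := hF
  obtain ⟨hF1, hF2, hF3, hF4, hF5⟩ := hF
  have hcen : ∀ u : ℝ, (u = 0 ∨ u = 1) → ∃ a₀ : ℝ, 1 / 4 ≤ a₀ ∧ a₀ ≤ 3 / 4 ∧ 2 * a₀ - u = 1 / 2 := by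
    rintro u (rfl | rfl)
    · exact ⟨1 / 4, by norm_num, by norm_num, by norm_num⟩
    · exact ⟨3 / 4, by norm_num, by norm_num, by norm_num⟩
  obtain ⟨a₀, a1, a2, a3⟩ := hcen u hu
  obtain ⟨c₀, c1, c2, c3⟩ := hcen v hv
  have tail : ∀ t t₀ : ℝ, 1 / 4 ≤ t₀ → t₀ ≤ 3 / 4 → 0 ≤ t → t < 1 → 1 / 5 ≤ |t - t₀| →
      fw 40 (t - t₀) ≤ 1 / 256 := by
    intro t t₀ h1 h2 h3 h4 h5
    refine (hF3 40 (1 / 5) (t - t₀) (by norm_num) (by norm_num) h5
      (abs_le.2 ⟨by linarith, by linarith⟩)).trans ?_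
    norm_num
  have key : ∀ x ∈ X, fw 40 (a x - a₀) * fw 40 (c x - c₀) - 1 / 256 * fw 40 (a x - a₀) -
      1 / 256 * fw 40 (c x - c₀) ≤ if ((0 ≤ a x + a x - u ∧ a x + a x - u < 1) ∧
        (0 ≤ c x + c x - v ∧ c x + c x - v < 1)) then 1 else 0 := by
    intro x hx
    obtain ⟨g0, g1⟩ := hF1 40 (a x - a₀)
    obtain ⟨d0, d1⟩ := hF1 40 (c x - c₀)
    split_ifs with hP
    · nlinarith
    · obtain ⟨a01, a02⟩ := ha x hx
      obtain ⟨c01, c02⟩ := hc x hx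
      by_cases h1 : 1 / 5 ≤ |a x - a₀|
      · have := tail (a x) a₀ a1 a2 a01 a02 h1
        nlinarith
      · by_cases h2 : 1 / 5 ≤ |c x - c₀|
        · have := tail (c x) c₀ c1 c2 c01 c02 h2
          nlinarith
        · obtain ⟨e1, e2⟩ := abs_lt.1 (not_le.1 h1)
          obtain ⟨e3, e4⟩ := abs_lt.1 (not_le.1 h2)
          exact absurd ⟨⟨by linarith, by linarith⟩, ⟨by linarith, by linarith⟩⟩ hP
  have hsum := card_ge X (fun x => (0 ≤ a x + a x - u ∧ a x + a x - u < 1) ∧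
        (0 ≤ c x + c x - v ∧ c x + c x - v < 1)) _ key
  rw [Finset.sum_sub_distrib, Finset.sum_sub_distrib, ← Finset.mul_sum, ← Finset.mul_sum] at hsum
  have b1 := avgL hFc hA X a c 40 40 (1 / 10000) a₀ (by norm_num) le_rfl (by norm_num) hE
  have b2 := avgR hFc hA X a c 40 40 (1 / 10000) c₀ (by norm_num) le_rfl (by norm_num) hE
  have b3 := avg2 hFc hA X a c 40 40 40 (1 / 10000) a₀ c₀ (by norm_num)
    (by norm_num) le_rfl (by norm_num) (by norm_num) hE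
  obtain ⟨-, b4⟩ := abs_le.1 b1
  obtain ⟨-, b5⟩ := abs_le.1 b2
  obtain ⟨b6, -⟩ := abs_le.1 b3
  push_cast at b4 b5 b6
  have hX : (0 : ℝ) ≤ #X := Nat.cast_nonneg _
  exact le_trans (by linarith) hsum

end Pool.Agent.Helper89.CO
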