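import Pool.Agent.Helper74.CO.Goals

/-!
# Project CO (MP_c5396e_co), packet WSOL
-/

set_option autoImplicit false

namespace Pool.Agent.Helper89.CO

open Pool.Agent.Helper74.CO Finset

theorem wsol_eq {z : ℤ} {m : ℤ} {j : ℤ} (h1 : 0 ≤ z) (h2 : z < m) (h3 : 0 ≤ j) (h4 : j < m)
    (h : m ∣ z - j) : z = j := by
  obtain ⟨t, ht⟩ := h
  have h5 : t < 1 := by
    by_contra hcon
    push Not at hcon
    nlinarith
  have h6 : -1 < t := by
    by_contra hcon
    push Not at hcon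
    nlinarith
  have : t = 0 := by omega
  subst this
  linarith

theorem wsol_mem {p : ℕ} [Fact p.Prime] {g c x : ZMod p} {i : ℤ} (hc : c ≠ 0) (hx : x ≠ 0)
    (h0 : 0 ≤ i) (h1 : i < (p : ℤ) - 1) (hi : g ^ i = x / c) : (i, (x.val : ℤ)) ∈ Wa p g c := by
  classical
  rw [Wa, Finset.mem_filter, Finset.mem_product, Finset.mem_Icc, Finset.mem_Icc]
  have hv0 : x.val ≠ 0 := fun h => hx ((ZMod.val_eq_zero x).1 h)
  have hv1 : x.val < p := ZMod.val_lt x
  refine ⟨⟨⟨h0, by linarith⟩, ⟨?_, ?_⟩⟩, ?_⟩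
  · show (1 : ℤ) ≤ (x.val : ℤ)
    omega
  · show (x.val : ℤ) ≤ (p : ℤ) - 1
    omega
  · show c * g ^ i = (((x.val : ℤ) : ℤ) : ZMod p)
    rw [hi, mul_div_cancel₀ _ hc, Int.cast_natCast, ZMod.natCast_zmod_val]

theorem t_WSOL (hI : IND) : WSOL := by
  classical
  intro p _ g c u v hp hg hc hev
  have hcard : Fintype.card (ZMod p) = p := ZMod.card p
  obtain ⟨hg0, -, hind, hpow⟩ := hI (ZMod p) g hg (by rw [hcard]; exact hp)
  rw [hcard] at hind hpow
  set e : ZMod p := c * g ^ u with he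
  set vb : ZMod p := (v : ZMod p) with hvb
  have he0 : e ≠ 0 := mul_ne_zero hc (zpow_ne_zero _ hg0)
  have hp1 : (0 : ℝ) < (p : ℝ) - 1 := by
    have : (3 : ℝ) ≤ p := by exact_mod_cast hp
    linarith
  have hp0 : (0 : ℝ) < (p : ℝ) := by linarith
  refine Finset.card_le_card_of_injOn (fun x => (((ind g (x / c) : ℤ), (x.val : ℤ)),
    ((ind g (Mw e vb x / c) : ℤ), ((Mw e vb x).val : ℤ)))) ?_ ?_
  · intro x hx
    rw [Finset.mem_coe, Finset.mem_filter] at hx
    obtain ⟨hx, ⟨⟨hu1, hu2⟩, ⟨hv1, hv2⟩⟩⟩ := hx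
    rw [Xw, Finset.mem_filter] at hx
    obtain ⟨-, hx0, hxv, hxe⟩ := hx
    set y : ZMod p := Mw e vb x with hy
    have hxe' : x - e ≠ 0 := sub_ne_zero.2 hxe
    have hxv' : x - vb ≠ 0 := sub_ne_zero.2 hxv
    have hy0 : y ≠ 0 := by
      rw [hy, Mw]
      exact div_ne_zero (mul_ne_zero he0 hxv') hxe'
    have hyx : y * (x - e) = e * (x - vb) := by
      rw [hy, Mw, div_mul_cancel₀ _ hxe']
    set z : ZMod p := x * y / e with hz
    have hz0 : z ≠ 0 := div_ne_zero (mul_ne_zero hx0 hy0) he0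
    have hze : z * e = x * y := by rw [hz, div_mul_cancel₀ _ he0]
    have hsum : x + y - vb = z := by
      apply mul_right_cancel₀ he0
      rw [hze]
      linear_combination (-1 : ZMod p) * hyx
    obtain ⟨hi1, hi2⟩ := hind (x / c) (div_ne_zero hx0 hc)
    obtain ⟨hk1, hk2⟩ := hind (y / c) (div_ne_zero hy0 hc)
    obtain ⟨hj1, hj2⟩ := hind (z / c) (div_ne_zero hz0 hc)
    set i : ℕ := ind g (x / c) with hi
    set k : ℕ := ind g (y / c) with hk
    set j : ℕ := ind g (z / c) with hj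
    -- the first coordinate
    have hd : ((p : ℤ) - 1) ∣ ((i : ℤ) + k - u) - j := by
      have h1 : g ^ ((i : ℤ) + k) = g ^ (u + j) := by
        rw [zpow_add₀ hg0, zpow_add₀ hg0, zpow_natCast, zpow_natCast, zpow_natCast, hi1, hk1, hj1]
        have hgu : g ^ u = e / c := by rw [he, mul_div_cancel_left₀ _ hc]
        rw [hgu]
        field_simp
        linear_combination (-1 : ZMod p) * hze
      have h2 := (hpow _ _).1 h1
      have e3 : ((i : ℤ) + k - u) - j = (i : ℤ) + k - (u + j) := by ring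
      rw [e3]
      exact h2
    have haw : aw p g c x + aw p g c y - u / ((p : ℝ) - 1) =
        (((i : ℤ) + k - u : ℤ) : ℝ) / ((p : ℝ) - 1) := by
      rw [aw, aw, ← hi, ← hk]
      push_cast
      ring
    have hcw : cw p x + cw p y - v / (p : ℝ) = (((x.val : ℤ) + y.val - v : ℤ) : ℝ) / (p : ℝ) := by
      rw [cw, cw]
      push_cast
      ring
    rw [haw] at hu1 hu2
    rw [hcw] at hv1 hv2
    have hu1' : (0 : ℤ) ≤ (i : ℤ) + k - u := by
      have := mul_nonneg hu1 hp1.le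
      rw [div_mul_cancel₀ _ hp1.ne'] at this
      exact_mod_cast this
    have hu2' : (i : ℤ) + k - u < (p : ℤ) - 1 := by
      rw [div_lt_one hp1] at hu2
      exact_mod_cast hu2
    have hv1' : (0 : ℤ) ≤ (x.val : ℤ) + y.val - v := by
      have := mul_nonneg hv1 hp0.le
      rw [div_mul_cancel₀ _ hp0.ne'] at this
      exact_mod_cast this
    have hv2' : (x.val : ℤ) + y.val - v < (p : ℤ) := by
      rw [div_lt_one hp0] at hv2
      exact_mod_cast hv2
    have hE1 : (i : ℤ) + k - u = j := wsol_eq hu1' hu2' (Int.natCast_nonneg _) hj2 hd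
    have hE2 : (x.val : ℤ) + y.val - v = z.val := by
      refine wsol_eq hv1' hv2' (Int.natCast_nonneg _) (by exact_mod_cast ZMod.val_lt z) ?_
      rw [← ZMod.intCast_zmod_eq_zero_iff_dvd]
      push_cast
      rw [ZMod.natCast_zmod_val, ZMod.natCast_zmod_val, ZMod.natCast_zmod_val, ← hvb, hsum,
        sub_self]
    rw [Finset.mem_coe, sols, Finset.mem_filter, Finset.mem_product]
    refine ⟨⟨?_, ?_⟩, ?_⟩
    · exact wsol_mem hc hx0 (Int.natCast_nonneg _) hi2 (by rw [zpow_natCast]; exact hi1)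
    · exact wsol_mem hc hy0 (Int.natCast_nonneg _) hk2 (by rw [zpow_natCast]; exact hk1)
    · have e4 : (((i : ℤ), (x.val : ℤ)) : ℤ × ℤ) + ((k : ℤ), (y.val : ℤ)) - (u, v) =
          ((j : ℤ), (z.val : ℤ)) := by
        rw [Prod.mk_add_mk, Prod.mk_sub_mk, hE1, hE2]
      show (((i : ℤ), (x.val : ℤ)) : ℤ × ℤ) + ((k : ℤ), (y.val : ℤ)) - (u, v) ∈ Wa p g c
      rw [e4]
      exact wsol_mem hc hz0 (Int.natCast_nonneg _) hj2 (by rw [zpow_natCast]; exact hj1)
  · intro x _ x' _ h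
    have h1 : (x.val : ℤ) = (x'.val : ℤ) := congrArg (fun w => w.1.2) h
    exact ZMod.val_injective p (by exact_mod_cast h1)

end Pool.Agent.Helper89.CO
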